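import Pool.Agent.QFI.Mat
import Pool.Agent.QFP.A2x

/-!
# [QFI.Cell] Cells of finite families of commuting projections, and the homomorphisms `Xi`
-/

set_option autoImplicit false

namespace Pool.Agent.QFI

open Pool.Agent.QFP
open scoped Matrix.Norms.L2Operator

universe u

section comm

variable {R ι : Type*} [CommRing R] [Fintype ι] [DecidableEq ι]

/-- the cells of a finite family of idempotents -/
def cell (e : ι → R) (c : ι → Bool) : R := ∏ i, if c i then e i else 1 - e i

theorem cell_sum (e : ι → R) : ∑ c, cell e c = 1 := by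
  unfold cell
  have h := Finset.prod_univ_sum (fun _ : ι => (Finset.univ : Finset Bool))
    (fun i b => if b then e i else 1 - e i)
  rw [Fintype.piFinset_univ] at h
  rw [← h]
  refine Finset.prod_eq_one fun i _ => ?_
  simp

theorem cell_mul_left (e : ι → R) (he : ∀ i, e i * e i = e i) (c : ι → Bool) (i : ι) :
    e i * cell e c = if c i then cell e c else 0 := by
  unfold cell
  rw [← Finset.mul_prod_erase Finset.univ _ (Finset.mem_univ i), ← mul_assoc]
  by_cases h : c i = true
  · rw [if_pos h, if_pos h, he]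
  · rw [if_neg h, if_neg h, mul_sub, mul_one, he, sub_self, zero_mul]

theorem cell_mul (e : ι → R) (he : ∀ i, e i * e i = e i) (c c' : ι → Bool) :
    cell e c * cell e c' = if c = c' then cell e c else 0 := by
  by_cases h : c = c'
  · subst h
    rw [if_pos rfl]
    unfold cell
    rw [← Finset.prod_mul_distrib]
    refine Finset.prod_congr rfl fun i _ => ?_
    by_cases hc : c i = true
    · rw [if_pos hc, he]
    · rw [if_neg hc]
      have := he i
      linear_combination this
  · rw [if_neg h]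
    obtain ⟨i, hi⟩ := Function.ne_iff.1 h
    have h1 := cell_mul_left e he c i
    have h2 := cell_mul_left e he c' i
    by_cases hc : c i = true
    · have hc' : ¬ c' i = true := fun h' => hi (hc.trans h'.symm)
      rw [if_pos hc] at h1
      rw [if_neg hc'] at h2
      calc cell e c * cell e c' = (e i * cell e c) * cell e c' := by rw [h1]
        _ = cell e c * (e i * cell e c') := by ring
        _ = 0 := by rw [h2, mul_zero]
    · have hc' : c' i = true := by
        rcases Bool.eq_false_or_eq_true (c' i) with h' | h'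
        · exact h'
        · rw [Bool.not_eq_true] at hc
          exact absurd (hc.trans h'.symm) hi
      rw [if_neg hc] at h1
      rw [if_pos hc'] at h2
      calc cell e c * cell e c' = cell e c * (e i * cell e c') := by rw [h2]
        _ = (e i * cell e c) * cell e c' := by ring
        _ = 0 := by rw [h1, zero_mul]

end comm

section centre

variable {𝒜 : Type u} [CStarAlgebra 𝒜]

/-- the centre of `N` -/
def Zc (N : StarSubalgebra ℂ 𝒜) : Subring 𝒜 where
  carrier := {a | a ∈ N ∧ ∀ x ∈ N, a * x = x * a}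
  mul_mem' := by
    rintro a b ⟨ha, ha'⟩ ⟨hb, hb'⟩
    refine ⟨mul_mem ha hb, fun x hx => ?_⟩
    rw [mul_assoc, hb' x hx, ← mul_assoc, ha' x hx, mul_assoc]
  one_mem' := ⟨one_mem N, fun x _ => by rw [one_mul, mul_one]⟩
  add_mem' := by
    rintro a b ⟨ha, ha'⟩ ⟨hb, hb'⟩
    refine ⟨add_mem ha hb, fun x hx => ?_⟩
    rw [add_mul, mul_add, ha' x hx, hb' x hx]
  zero_mem' := ⟨zero_mem N, fun x _ => by rw [zero_mul, mul_zero]⟩
  neg_mem' := by
    rintro a ⟨ha, ha'⟩
    refine ⟨neg_mem ha, fun x hx => ?_⟩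
    rw [neg_mul, mul_neg, ha' x hx]

instance (N : StarSubalgebra ℂ 𝒜) : CommRing (Zc N) :=
  { (Zc N).toRing with
    mul_comm := fun a b => Subtype.ext (a.2.2 b.1 b.2.1) }

theorem Zc_star_prod {N : StarSubalgebra ℂ 𝒜} {ι : Type*} (s : Finset ι) (x : ι → Zc N)
    (hx : ∀ i, star (x i : 𝒜) = x i) : star ((∏ i ∈ s, x i : Zc N) : 𝒜) = (∏ i ∈ s, x i : Zc N) := by
  classical
  induction s using Finset.induction with
  | empty =>
    rw [Finset.prod_empty]
    exact star_one 𝒜
  | insert i s hi ih =>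
    rw [Finset.prod_insert hi]
    show star ((x i : 𝒜) * ((∏ i ∈ s, x i : Zc N) : 𝒜)) = (x i : 𝒜) * ((∏ i ∈ s, x i : Zc N) : 𝒜)
    rw [star_mul, hx, ih]
    exact (∏ i ∈ s, x i : Zc N).2.2 _ (x i).2.1

/-- a finite partition of unity by projections -/
structure PartUnity {K : Type*} [Fintype K] [DecidableEq K] (z : K → 𝒜) : Prop where
  star_eq : ∀ k, star (z k) = z k
  mul : ∀ k l, z k * z l = if k = l then z k else 0
  sum : ∑ k, z k = 1

/-- The cells of finitely many central projections of `N`. -/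
theorem exists_cells {N : StarSubalgebra ℂ 𝒜} {ι : Type*} [Fintype ι] [DecidableEq ι] (e : ι → 𝒜)
    (hN : ∀ i, e i ∈ N) (hc : ∀ i, ∀ x ∈ N, e i * x = x * e i) (hs : ∀ i, star (e i) = e i)
    (he : ∀ i, e i * e i = e i) :
    ∃ q : (ι → Bool) → 𝒜, PartUnity q ∧ (∀ c, q c ∈ N) ∧ (∀ c, ∀ x ∈ N, q c * x = x * q c) ∧
      ∀ c i, e i * q c = if c i then q c else 0 := by
  let e' : ι → Zc N := fun i => ⟨e i, hN i, hc i⟩
  have he' : ∀ i, e' i * e' i = e' i := fun i => Subtype.ext (he i)
  refine ⟨fun c => (cell e' c : Zc N), ⟨fun c => ?_, fun c c' => ?_, ?_⟩, fun c => (cell e' c).2.1,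
    fun c => (cell e' c).2.2, fun c i => ?_⟩
  · refine Zc_star_prod _ _ fun i => ?_
    by_cases h : c i = true
    · rw [if_pos h]
      exact hs i
    · rw [if_neg h]
      show star (1 - e i) = 1 - e i
      rw [star_sub, star_one, hs]
  · have h := congrArg Subtype.val (cell_mul e' he' c c')
    refine Eq.trans h ?_
    by_cases hcc : c = c'
    · rw [if_pos hcc, if_pos hcc]
    · rw [if_neg hcc, if_neg hcc]
      rfl
  · have h := congrArg Subtype.val (cell_sum e')
    refine Eq.trans ?_ h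
    exact (map_sum (Zc N).subtype _ _).symm
  · have h := congrArg Subtype.val (cell_mul_left e' he' c i)
    refine Eq.trans h ?_
    by_cases hcc : c i = true
    · rw [if_pos hcc, if_pos hcc]
    · rw [if_neg hcc, if_neg hcc]
      rfl

end centre

section Xi

attribute [local instance] matCStar

variable {𝒜 : Type u} [CStarAlgebra 𝒜] {D : Type} [Fintype D] [DecidableEq D] {K : Type*}
  [Fintype K] [DecidableEq K]

theorem Xi_aux (z : K → 𝒜) (P : K → Matrix D D ℂ) (k : K)
    (hz : PartUnity z) : jmap D (z k) * (∑ l, jmap D (z l) * smap D 𝒜 (P l)) =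
      jmap D (z k) * smap D 𝒜 (P k) := by
  rw [Finset.mul_sum, Finset.sum_eq_single k]
  · rw [← mul_assoc, ← map_mul, hz.mul, if_pos rfl]
  · intro l _ hl
    rw [← mul_assoc, ← map_mul, hz.mul, if_neg (Ne.symm hl), map_zero, zero_mul]
  · intro h
    exact absurd (Finset.mem_univ _) h

/-- `P ↦ ∑ z k ⊗ P k` -/
noncomputable def Xi (D : Type) [Fintype D] [DecidableEq D] (z : K → 𝒜) (hz : PartUnity z) :
    (K → Matrix D D ℂ) →⋆ₐ[ℂ] CStarMatrix D D 𝒜 where
  toFun P := ∑ k, jmap D (z k) * smap D 𝒜 (P k)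
  map_one' := by
    have h : ∀ k, jmap D (z k) * smap D 𝒜 ((1 : K → Matrix D D ℂ) k) = jmap D (z k) := by
      intro k
      rw [Pi.one_apply, map_one, mul_one]
    rw [Finset.sum_congr rfl fun k _ => h k, ← map_sum, hz.sum, map_one]
  map_mul' P Q := by
    rw [Finset.sum_mul]
    refine Finset.sum_congr rfl fun k _ => ?_
    rw [jmap_smap_comm (z k) (P k), mul_assoc (smap D 𝒜 (P k)), Xi_aux z Q k hz, ← mul_assoc,
      ← jmap_smap_comm, mul_assoc, ← map_mul]
    rfl
  map_zero' := by
    refine Finset.sum_eq_zero fun k _ => ?_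
    rw [Pi.zero_apply, map_zero, mul_zero]
  map_add' P Q := by
    rw [← Finset.sum_add_distrib]
    refine Finset.sum_congr rfl fun k _ => ?_
    rw [← mul_add, ← map_add]
    rfl
  commutes' r := by
    have h : ∀ k, jmap D (z k) * smap D 𝒜 ((algebraMap ℂ (K → Matrix D D ℂ) r) k) =
        r • jmap D (z k) := by
      intro k
      have e : (algebraMap ℂ (K → Matrix D D ℂ) r) k = r • (1 : Matrix D D ℂ) := by
        rw [Pi.algebraMap_apply, Algebra.algebraMap_eq_smul_one]
      rw [e, map_smul, map_one, mul_smul_comm, mul_one]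
    rw [Finset.sum_congr rfl fun k _ => h k, ← Finset.smul_sum, ← map_sum, hz.sum, map_one,
      Algebra.algebraMap_eq_smul_one]
  map_star' P := by
    rw [star_sum]
    refine Finset.sum_congr rfl fun k _ => ?_
    rw [star_mul, ← map_star, ← map_star, hz.star_eq, jmap_smap_comm]
    rfl

theorem Xi_apply (z : K → 𝒜) (hz : PartUnity z) (P : K → Matrix D D ℂ) :
    Xi D z hz P = ∑ k, jmap D (z k) * smap D 𝒜 (P k) := rfl

theorem Xi_comm (z : K → 𝒜) (hz : PartUnity z) (P : K → Matrix D D ℂ) (x : 𝒜)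
    (h : ∀ k, z k * x = x * z k) : Xi D z hz P * jmap D x = jmap D x * Xi D z hz P := by
  rw [Xi_apply, Finset.sum_mul, Finset.mul_sum]
  refine Finset.sum_congr rfl fun k _ => ?_
  rw [mul_assoc, ← jmap_smap_comm, ← mul_assoc, ← map_mul, h, map_mul, mul_assoc]

theorem Xi_congr (z : K → 𝒜) (hz : PartUnity z) (P Q : K → Matrix D D ℂ)
    (h : ∀ k, z k ≠ 0 → P k = Q k) : Xi D z hz P = Xi D z hz Q := by
  rw [Xi_apply, Xi_apply]
  refine Finset.sum_congr rfl fun k _ => ?_
  by_cases hk : z k = 0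
  · rw [hk, map_zero, zero_mul, zero_mul]
  · rw [h k hk]

theorem PartUnity.conj {z : K → 𝒜} (hz : PartUnity z) (U : 𝒜) (h1 : U * star U = 1)
    (h2 : star U * U = 1) : PartUnity fun k => U * z k * star U where
  star_eq k := by rw [star_mul, star_mul, star_star, hz.star_eq, mul_assoc]
  mul k l := by
    have e : U * z k * star U * (U * z l * star U) = U * (z k * z l) * star U := by
      calc _ = U * z k * (star U * U) * z l * star U := by noncomm_ring
        _ = _ := by rw [h2]; noncomm_ring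
    rw [e, hz.mul]
    split_ifs
    · rfl
    · rw [mul_zero, zero_mul]
  sum := by rw [← Finset.sum_mul, ← Finset.mul_sum, hz.sum, mul_one, h1]

theorem Xi_conj (z : K → 𝒜) (hz : PartUnity z) (P : K → Matrix D D ℂ) (U : 𝒜)
    (h1 : U * star U = 1) (h2 : star U * U = 1) :
    jmap D U * Xi D z hz P = Xi D _ (hz.conj U h1 h2) P * jmap D U := by
  rw [Xi_apply, Xi_apply, Finset.sum_mul, Finset.mul_sum]
  refine Finset.sum_congr rfl fun k _ => ?_
  have e : U * z k * star U * U = U * z k := by rw [mul_assoc, h2, mul_one]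
  calc jmap D U * (jmap D (z k) * smap D 𝒜 (P k)) = jmap D (U * z k) * smap D 𝒜 (P k) := by
        rw [← mul_assoc, ← map_mul]
    _ = jmap D (U * z k * star U * U) * smap D 𝒜 (P k) := by rw [e]
    _ = jmap D (U * z k * star U) * (jmap D U * smap D 𝒜 (P k)) := by
        rw [map_mul (jmap D) (U * z k * star U) U, mul_assoc]
    _ = _ := by rw [jmap_smap_comm U (P k), ← mul_assoc]

theorem PartUnity.prod {K' : Type*} [Fintype K'] [DecidableEq K'] {z : K → 𝒜} {z' : K' → 𝒜}
    (hz : PartUnity z) (hz' : PartUnity z') (hc : ∀ k k', z k * z' k' = z' k' * z k) :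
    PartUnity fun k : K × K' => z k.1 * z' k.2 where
  star_eq k := by rw [star_mul, hz.star_eq, hz'.star_eq, hc]
  mul k l := by
    have e : z k.1 * z' k.2 * (z l.1 * z' l.2) = (z k.1 * z l.1) * (z' k.2 * z' l.2) := by
      calc _ = z k.1 * (z' k.2 * z l.1) * z' l.2 := by noncomm_ring
        _ = _ := by rw [← hc]; noncomm_ring
    rw [e, hz.mul, hz'.mul]
    by_cases h1 : k.1 = l.1
    · by_cases h2 : k.2 = l.2
      · rw [if_pos h1, if_pos h2, if_pos (Prod.ext h1 h2)]
      · rw [if_neg h2, mul_zero, if_neg]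
        rintro rfl
        exact h2 rfl
    · rw [if_neg h1, zero_mul, if_neg]
      rintro rfl
      exact h1 rfl
  sum := by
    rw [Fintype.sum_prod_type]
    have h : ∀ k, ∑ k', z k * z' k' = z k := by
      intro k
      rw [← Finset.mul_sum, hz'.sum, mul_one]
    rw [Finset.sum_congr rfl fun k _ => h k, hz.sum]

theorem Xi_fst {K' : Type*} [Fintype K'] [DecidableEq K'] {z : K → 𝒜} {z' : K' → 𝒜}
    (hz : PartUnity z) (hz' : PartUnity z') (hc : ∀ k k', z k * z' k' = z' k' * z k)
    (P : K → Matrix D D ℂ) : Xi D _ (hz.prod hz' hc) (fun k => P k.1) = Xi D z hz P := by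
  rw [Xi_apply, Xi_apply, Fintype.sum_prod_type]
  refine Finset.sum_congr rfl fun k _ => ?_
  show ∑ k', jmap D (z k * z' k') * smap D 𝒜 (P k) = _
  rw [← Finset.sum_mul, ← map_sum, ← Finset.mul_sum, hz'.sum, mul_one]

theorem Xi_snd {K' : Type*} [Fintype K'] [DecidableEq K'] {z : K → 𝒜} {z' : K' → 𝒜}
    (hz : PartUnity z) (hz' : PartUnity z') (hc : ∀ k k', z k * z' k' = z' k' * z k)
    (P : K' → Matrix D D ℂ) : Xi D _ (hz.prod hz' hc) (fun k => P k.2) = Xi D z' hz' P := by
  rw [Xi_apply, Xi_apply, Fintype.sum_prod_type, Finset.sum_comm]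
  refine Finset.sum_congr rfl fun k' _ => ?_
  show ∑ k, jmap D (z k * z' k') * smap D 𝒜 (P k') = _
  rw [← Finset.sum_mul, ← map_sum, ← Finset.sum_mul, hz.sum, one_mul]

theorem mtr_Xi (τ : 𝒜 →ₗ[ℂ] ℂ) (z : K → 𝒜) (hz : PartUnity z) (P : K → Matrix D D ℂ) :
    mtr D τ (Xi D z hz P) = ∑ k, τ (z k) * ntr (P k) := by
  rw [Xi_apply, map_sum]
  exact Finset.sum_congr rfl fun k _ => mtr_jmap_smap τ _ _

end Xi

section perm

variable {D : Type} [Fintype D] [DecidableEq D]

theorem A2x_diag (σ : Equiv.Perm D) (F F' : D → ℂ) (h : ∀ d, F (σ d) = F' d) :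
    A2x_P σ * Matrix.diagonal F = Matrix.diagonal F' * A2x_P σ := by
  rw [A2x_P_mul]
  ext i j
  rw [Matrix.submatrix_apply, Matrix.diagonal_mul, Matrix.diagonal_apply, A2x_P_apply, id_eq]
  by_cases hij : σ i = j
  · subst hij
    rw [if_pos rfl, if_pos rfl, mul_one, h]
  · rw [if_neg hij, if_neg hij, mul_zero]

end perm

end Pool.Agent.QFI
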