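import Mathlib

/-!
# [QFI.Lab] Labels: matching permutations and sign sums
-/

set_option autoImplicit false

namespace Pool.Agent.QFI

/-- Two homomorphisms from a finite group with the same range differ by a permutation. -/
theorem exists_perm {D C : Type*} [AddCommGroup D] [Finite D] [AddCommGroup C] (Φ Ψ : D →+ C)
    (h : Φ.range = Ψ.range) : ∃ σ : Equiv.Perm D, ∀ d, Ψ (σ d) = Φ d := by
  classical
  have hfib : ∀ (Θ : D →+ C) (c : C), c ∈ Θ.range → Nonempty ({d // Θ d = c} ≃ Θ.ker) := by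
    intro Θ c hc
    obtain ⟨d0, hd0⟩ := AddMonoidHom.mem_range.1 hc
    refine ⟨⟨fun d => ⟨d.1 - d0, ?_⟩, fun k => ⟨k.1 + d0, ?_⟩, ?_, ?_⟩⟩
    · rw [AddMonoidHom.mem_ker, map_sub, d.2, hd0, sub_self]
    · rw [map_add, AddMonoidHom.mem_ker.1 k.2, hd0, zero_add]
    · intro d
      exact Subtype.ext (sub_add_cancel _ _)
    · intro k
      exact Subtype.ext (add_sub_cancel_right _ _)
  have hker : Nat.card Φ.ker = Nat.card Ψ.ker := by
    have h1 := Φ.ker.card_mul_index
    have h2 := Ψ.ker.card_mul_index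
    rw [AddSubgroup.index_ker] at h1 h2
    rw [← h2, h] at h1
    have h3 : Nat.card Ψ.range ≠ 0 := by
      have : Finite Ψ.range := Set.finite_range Ψ
      exact Nat.card_pos.ne'
    exact Nat.eq_of_mul_eq_mul_right (Nat.pos_of_ne_zero h3) h1
  have heq : ∀ c : C, Nonempty ({d // Φ d = c} ≃ {d // Ψ d = c}) := by
    intro c
    by_cases hc : c ∈ Φ.range
    · obtain ⟨e1⟩ := hfib Φ c hc
      obtain ⟨e2⟩ := hfib Ψ c (h ▸ hc)
      have i1 : Finite Φ.ker := inferInstance
      obtain ⟨e3⟩ : Nonempty (Φ.ker ≃ Ψ.ker) := Finite.card_eq.1 hker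
      exact ⟨e1.trans (e3.trans e2.symm)⟩
    · have h1 : IsEmpty {d // Φ d = c} := ⟨fun d => hc ⟨d.1, d.2⟩⟩
      have h2 : IsEmpty {d // Ψ d = c} := ⟨fun d => hc (h ▸ ⟨d.1, d.2⟩)⟩
      exact ⟨Equiv.equivOfIsEmpty _ _⟩
  exact ⟨Equiv.ofFiberEquiv fun c => (heq c).some,
    fun d => Equiv.ofFiberEquiv_map (fun c => (heq c).some) d⟩

/-- Two families of coordinates with the same coincidences are matched by a permutation. -/
theorem exists_perm_comp {W O : Type*} [Finite W] (r r' : O → W)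
    (h : ∀ a b, r a = r b ↔ r' a = r' b) :
    ∃ σ : Equiv.Perm (W → ZMod 2), ∀ d a, (σ d) (r' a) = d (r a) := by
  classical
  have : Finite (W → ZMod 2) := inferInstance
  let Θ : (O → W) → ((W → ZMod 2) →+ (O → ZMod 2)) := fun r =>
    { toFun := fun d a => d (r a)
      map_zero' := rfl
      map_add' := fun _ _ => rfl }
  have hr : ∀ r r' : O → W, (∀ a b, r a = r b ↔ r' a = r' b) → (Θ r).range ≤ (Θ r').range := by
    intro r r' h
    rintro c ⟨d, rfl⟩
    refine ⟨fun w => if hw : ∃ a, r' a = w then d (r hw.choose) else 0, ?_⟩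
    funext a
    have hw : ∃ b, r' b = r' a := ⟨a, rfl⟩
    show (if hw : ∃ b, r' b = r' a then d (r hw.choose) else 0) = d (r a)
    rw [dif_pos hw, (h _ _).2 hw.choose_spec]
  obtain ⟨σ, hσ⟩ := exists_perm (Θ r) (Θ r') (le_antisymm (hr r r' h) (hr r' r fun a b => (h a b).symm))
  exact ⟨σ, fun d a => congrFun (hσ d) a⟩

/-- the character of `ℤ/2` -/
def sgn (a : ZMod 2) : ℂ := if a = 0 then 1 else -1

theorem sgn_add (a b : ZMod 2) : sgn (a + b) = sgn a * sgn b := by
  have h : ∀ a : ZMod 2, a = 0 ∨ a = 1 := by decide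
  have h11 : (1 : ZMod 2) + 1 = 0 := by decide
  have h1 : (1 : ZMod 2) ≠ 0 := by decide
  unfold sgn
  rcases h a with rfl | rfl
  · rcases h b with rfl | rfl
    · simp
    · simp
  · rcases h b with rfl | rfl
    · simp
    · rw [h11, if_pos rfl, if_neg h1]
      norm_num

theorem sgn_mul_self (a : ZMod 2) : sgn a * sgn a = 1 := by
  unfold sgn
  split_ifs <;> norm_num

theorem star_sgn (a : ZMod 2) : star (sgn a) = sgn a := by
  unfold sgn
  split_ifs <;> simp

/-- The sum of `sgn (d x + d y)` over all `d` is zero if `x ≠ y`, and similarly for a sum of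
characters which is flipped by the change of one coordinate. -/
theorem sum_flip {X : Type*} [Fintype X] [DecidableEq X] (f : (X → ZMod 2) → ℂ) (x : X)
    (h : ∀ d, f (d + (Pi.single x 1 : X → ZMod 2)) = - f d) : ∑ d, f d = 0 := by
  have h1 : ∑ d, f (d + (Pi.single x 1 : X → ZMod 2)) = ∑ d, f d :=
    Equiv.sum_comp (Equiv.addRight (Pi.single x 1 : X → ZMod 2)) f
  simp only [h, Finset.sum_neg_distrib] at h1
  have h2 : (2 : ℂ) * ∑ d, f d = 0 := by linear_combination -h1
  exact (mul_eq_zero.1 h2).resolve_left two_ne_zero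

theorem sgn_one : sgn 1 = -1 := by
  unfold sgn
  rw [if_neg (by decide)]

/-- Second moments of averages of products of signs. -/
theorem sum_avg_sq {n : ℕ} (hn : 0 < n) {W : Type*} [Fintype W] [DecidableEq W] (a b : W)
    (hab : a ≠ b) :
    ∑ d : Fin n × W → ZMod 2, ((n : ℂ)⁻¹ * ∑ s, sgn (d (s, a)) * sgn (d (s, b))) ^ 2 =
      (n : ℂ)⁻¹ * Fintype.card (Fin n × W → ZMod 2) := by
  have hn' : (n : ℂ) ≠ 0 := by exact_mod_cast hn.ne'
  have h1 : ∀ s s' : Fin n, ∑ d : Fin n × W → ZMod 2,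
      (sgn (d (s, a)) * sgn (d (s, b))) * (sgn (d (s', a)) * sgn (d (s', b))) =
      if s = s' then (Fintype.card (Fin n × W → ZMod 2) : ℂ) else 0 := by
    intro s s'
    by_cases hs : s = s'
    · subst hs
      rw [if_pos rfl]
      have : ∀ d : Fin n × W → ZMod 2,
          (sgn (d (s, a)) * sgn (d (s, b))) * (sgn (d (s, a)) * sgn (d (s, b))) = 1 := by
        intro d
        calc _ = (sgn (d (s, a)) * sgn (d (s, a))) * (sgn (d (s, b)) * sgn (d (s, b))) := by ring
          _ = 1 := by rw [sgn_mul_self, sgn_mul_self, mul_one]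
      rw [Finset.sum_congr rfl fun d _ => this d, Finset.sum_const, Finset.card_univ, nsmul_eq_mul,
        mul_one]
    · rw [if_neg hs]
      refine sum_flip _ (s, a) fun d => ?_
      have e1 : (d + (Pi.single (s, a) 1 : Fin n × W → ZMod 2)) (s, a) = d (s, a) + 1 := by
        rw [Pi.add_apply, Pi.single_eq_same]
      have e2 : (d + (Pi.single (s, a) 1 : Fin n × W → ZMod 2)) (s, b) = d (s, b) := by
        rw [Pi.add_apply, Pi.single_eq_of_ne, add_zero]
        intro h
        exact hab (congrArg Prod.snd h).symm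
      have e3 : ∀ w, (d + (Pi.single (s, a) 1 : Fin n × W → ZMod 2)) (s', w) = d (s', w) := by
        intro w
        rw [Pi.add_apply, Pi.single_eq_of_ne, add_zero]
        intro h
        exact hs (congrArg Prod.fst h).symm
      rw [e1, e2, e3, e3, sgn_add, sgn_one]
      ring
  have h2 : ∀ d : Fin n × W → ZMod 2,
      ((n : ℂ)⁻¹ * ∑ s, sgn (d (s, a)) * sgn (d (s, b))) ^ 2 =
      (n : ℂ)⁻¹ ^ 2 * ∑ s, ∑ s', (sgn (d (s, a)) * sgn (d (s, b))) *
        (sgn (d (s', a)) * sgn (d (s', b))) := by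
    intro d
    rw [mul_pow, pow_two (∑ s, _), Finset.sum_mul_sum]
  rw [Finset.sum_congr rfl fun d _ => h2 d, ← Finset.mul_sum, Finset.sum_comm]
  have h3 : ∑ s : Fin n, ∑ d : Fin n × W → ZMod 2, ∑ s', (sgn (d (s, a)) * sgn (d (s, b))) *
        (sgn (d (s', a)) * sgn (d (s', b))) =
      n * (Fintype.card (Fin n × W → ZMod 2) : ℂ) := by
    have h4 : ∀ s : Fin n, ∑ d : Fin n × W → ZMod 2, ∑ s', (sgn (d (s, a)) * sgn (d (s, b))) *
        (sgn (d (s', a)) * sgn (d (s', b))) = (Fintype.card (Fin n × W → ZMod 2) : ℂ) := by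
      intro s
      rw [Finset.sum_comm, Finset.sum_congr rfl fun s' _ => h1 s s', Finset.sum_ite_eq,
        if_pos (Finset.mem_univ _)]
    rw [Finset.sum_congr rfl fun s _ => h4 s, Finset.sum_const, Finset.card_univ, Fintype.card_fin,
      nsmul_eq_mul]
  rw [h3]
  field_simp

end Pool.Agent.QFI
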