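import Pool.Agent.QFI.W

/-!
# [QFI.Mat] Matrices over a Connes embeddable tracial C*-algebra
-/

set_option autoImplicit false

namespace Pool.Agent.QFI

open Pool.Agent.QFP
open scoped Matrix.Norms.L2Operator

universe u

/-- `M_D(𝒜)` is a C*-algebra. -/
@[reducible] noncomputable def matCStar (𝒜 : Type u) [CStarAlgebra 𝒜] (D : Type) [Fintype D]
    [DecidableEq D] : CStarAlgebra (CStarMatrix D D 𝒜) :=
  letI := CStarAlgebra.spectralOrder 𝒜
  haveI := CStarAlgebra.spectralOrderedRing 𝒜
  CStarMatrix.instCStarAlgebra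

attribute [local instance] matCStar

variable {𝒜 : Type u} [CStarAlgebra 𝒜] {D : Type} [Fintype D] [DecidableEq D]

/-- the normalised trace of `M_D(𝒜)` -/
noncomputable def mtr (D : Type) [Fintype D] [DecidableEq D] (τ : 𝒜 →ₗ[ℂ] ℂ) :
    CStarMatrix D D 𝒜 →ₗ[ℂ] ℂ where
  toFun x := (Fintype.card D : ℂ)⁻¹ * ∑ d, τ (x d d)
  map_add' x y := by
    rw [← mul_add, ← Finset.sum_add_distrib]
    congr 1
    exact Finset.sum_congr rfl fun d _ => map_add τ (x d d) (y d d)
  map_smul' z x := by
    have h : ∑ d, τ ((z • x) d d) = z * ∑ d, τ (x d d) := by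
      rw [Finset.mul_sum]
      exact Finset.sum_congr rfl fun d _ => map_smul τ z (x d d)
    rw [RingHom.id_apply, smul_eq_mul, h]
    ring

theorem mtr_apply (τ : 𝒜 →ₗ[ℂ] ℂ) (x : CStarMatrix D D 𝒜) :
    mtr D τ x = (Fintype.card D : ℂ)⁻¹ * ∑ d, τ (x d d) := rfl

theorem mtr_trAlg [Nonempty D] {τ : 𝒜 →ₗ[ℂ] ℂ} (hτ : TrAlg τ) : TrAlg (mtr D τ) := by
  have hc : (Fintype.card D : ℂ) ≠ 0 := by
    exact_mod_cast Fintype.card_ne_zero
  refine ⟨?_, fun x y => ?_, fun x => ?_⟩
  · rw [mtr_apply]
    have e : ∀ d : D, τ ((1 : CStarMatrix D D 𝒜) d d) = 1 := by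
      intro d
      have : (1 : CStarMatrix D D 𝒜) d d = 1 := CStarMatrix.one_apply_eq d
      rw [this, hτ.one]
    rw [Finset.sum_congr rfl fun d _ => e d, Finset.sum_const, Finset.card_univ, nsmul_eq_mul,
      mul_one, inv_mul_cancel₀ hc]
  · rw [mtr_apply, mtr_apply]
    congr 1
    have e : ∀ (x y : CStarMatrix D D 𝒜) (d : D), τ ((x * y) d d) = ∑ k, τ (x d k * y k d) := by
      intro x y d
      have : (x * y) d d = ∑ k, x d k * y k d := CStarMatrix.mul_apply
      rw [this, map_sum]
    rw [Finset.sum_congr rfl fun d _ => e x y d, Finset.sum_congr rfl fun d _ => e y x d,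
      Finset.sum_comm]
    refine Finset.sum_congr rfl fun d _ => Finset.sum_congr rfl fun k _ => ?_
    rw [hτ.comm]
  · have e : mtr D τ (star x * x) =
        (((Fintype.card D : ℝ)⁻¹ * ∑ d, ∑ k, n2 τ (x k d) ^ 2 : ℝ) : ℂ) := by
      rw [mtr_apply]
      push_cast
      congr 1
      refine Finset.sum_congr rfl fun d _ => ?_
      have h1 : (star x * x) d d = ∑ k, star (x k d) * x k d := CStarMatrix.mul_apply
      rw [h1, map_sum]
      refine Finset.sum_congr rfl fun k _ => ?_
      rw [hτ.apply_sq]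
      push_cast
      rfl
    rw [e]
    refine ⟨?_, Complex.ofReal_im _⟩
    rw [Complex.ofReal_re]
    positivity

/-- `a ↦ a ⊗ 1` -/
noncomputable def jmap (D : Type) [Fintype D] [DecidableEq D] : 𝒜 →⋆ₐ[ℂ] CStarMatrix D D 𝒜 where
  toFun a := CStarMatrix.ofMatrix (Matrix.diagonal fun _ => a)
  map_one' := by
    show (Matrix.diagonal fun _ => (1 : 𝒜)) = (1 : Matrix D D 𝒜)
    exact Matrix.diagonal_one
  map_mul' a b := (Matrix.diagonal_mul_diagonal (n := D) (fun _ => a) (fun _ => b)).symm
  map_zero' := by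
    show (Matrix.diagonal fun _ => (0 : 𝒜)) = (0 : Matrix D D 𝒜)
    exact Matrix.diagonal_zero
  map_add' a b := (Matrix.diagonal_add (n := D) (fun _ => a) (fun _ => b)).symm
  commutes' z := by
    rw [Algebra.algebraMap_eq_smul_one, Algebra.algebraMap_eq_smul_one]
    show (Matrix.diagonal fun _ => z • (1 : 𝒜) : Matrix D D 𝒜) = z • (1 : Matrix D D 𝒜)
    rw [← Matrix.diagonal_one, ← Matrix.diagonal_smul]
    rfl
  map_star' a := by
    show (Matrix.diagonal fun _ => star a : Matrix D D 𝒜) =
      star (Matrix.diagonal fun _ => a : Matrix D D 𝒜)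
    rw [Matrix.star_eq_conjTranspose, Matrix.diagonal_conjTranspose]
    rfl

/-- `x ↦ 1 ⊗ x` for a scalar matrix `x` -/
noncomputable def smap (D : Type) [Fintype D] [DecidableEq D] (𝒜 : Type u) [CStarAlgebra 𝒜] :
    Matrix D D ℂ →⋆ₐ[ℂ] CStarMatrix D D 𝒜 where
  toFun x := CStarMatrix.ofMatrix (x.map (algebraMap ℂ 𝒜))
  map_one' := by
    show (1 : Matrix D D ℂ).map (algebraMap ℂ 𝒜) = (1 : Matrix D D 𝒜)
    rw [Matrix.map_one _ (map_zero _) (map_one _)]
  map_mul' x y := by
    show (x * y).map (algebraMap ℂ 𝒜) = (x.map (algebraMap ℂ 𝒜) : Matrix D D 𝒜) *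
      y.map (algebraMap ℂ 𝒜)
    rw [Matrix.map_mul]
  map_zero' := by
    show (0 : Matrix D D ℂ).map (algebraMap ℂ 𝒜) = (0 : Matrix D D 𝒜)
    rw [Matrix.map_zero _ (map_zero _)]
  map_add' x y := by
    show (x + y).map (algebraMap ℂ 𝒜) = (x.map (algebraMap ℂ 𝒜) : Matrix D D 𝒜) +
      y.map (algebraMap ℂ 𝒜)
    rw [Matrix.map_add _ (map_add _)]
  commutes' z := by
    rw [Algebra.algebraMap_eq_smul_one, Algebra.algebraMap_eq_smul_one]
    show (z • (1 : Matrix D D ℂ)).map (algebraMap ℂ 𝒜) = z • (1 : Matrix D D 𝒜)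
    ext i j
    rw [Matrix.map_apply, Matrix.smul_apply, Matrix.smul_apply, smul_eq_mul, map_mul,
      Matrix.one_apply, Matrix.one_apply, Algebra.smul_def]
    by_cases h : i = j
    · simp [h]
    · simp [h]
  map_star' x := by
    show (star x).map (algebraMap ℂ 𝒜) = star (x.map (algebraMap ℂ 𝒜) : Matrix D D 𝒜)
    ext i j
    rw [Matrix.map_apply, Matrix.star_apply, Matrix.star_apply, Matrix.map_apply,
      algebraMap_star_comm]

theorem jmap_apply (a : 𝒜) (i j : D) : jmap D a i j = if i = j then a else 0 := by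
  show (Matrix.diagonal fun _ => a : Matrix D D 𝒜) i j = _
  rw [Matrix.diagonal_apply]

theorem smap_apply (x : Matrix D D ℂ) (i j : D) : smap D 𝒜 x i j = algebraMap ℂ 𝒜 (x i j) := rfl

theorem jmap_mul_smap_apply (a : 𝒜) (x : Matrix D D ℂ) (i j : D) :
    (jmap D a * smap D 𝒜 x) i j = x i j • a := by
  have h1 : (jmap D a * smap D 𝒜 x) i j = ∑ k, jmap D a i k * smap D 𝒜 x k j :=
    CStarMatrix.mul_apply
  rw [h1, Finset.sum_eq_single i]
  · rw [jmap_apply, if_pos rfl, smap_apply, ← Algebra.commutes, Algebra.smul_def]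
  · intro k _ hk
    rw [jmap_apply, if_neg (Ne.symm hk), zero_mul]
  · intro h
    exact absurd (Finset.mem_univ _) h

theorem jmap_smap_comm (a : 𝒜) (x : Matrix D D ℂ) :
    jmap D a * smap D 𝒜 x = smap D 𝒜 x * jmap D a := by
  refine CStarMatrix.ext fun i j => ?_
  rw [jmap_mul_smap_apply]
  have h1 : (smap D 𝒜 x * jmap D a) i j = ∑ k, smap D 𝒜 x i k * jmap D a k j :=
    CStarMatrix.mul_apply
  rw [h1, Finset.sum_eq_single j]
  · rw [jmap_apply, if_pos rfl, smap_apply, Algebra.smul_def]
  · intro k _ hk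
    rw [jmap_apply, if_neg hk, mul_zero]
  · intro h
    exact absurd (Finset.mem_univ _) h

theorem mtr_jmap_smap (τ : 𝒜 →ₗ[ℂ] ℂ) (a : 𝒜) (x : Matrix D D ℂ) :
    mtr D τ (jmap D a * smap D 𝒜 x) = τ a * ntr x := by
  rw [mtr_apply, ntr_apply, Matrix.trace]
  have e : ∀ d, τ ((jmap D a * smap D 𝒜 x) d d) = x d d * τ a := by
    intro d
    rw [jmap_mul_smap_apply, map_smul, smul_eq_mul]
  rw [Finset.sum_congr rfl fun d _ => e d, ← Finset.sum_mul]
  simp only [Matrix.diag_apply]
  ring

/-- matrix units have norm at most 1 -/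
theorem norm_single_le (i j : D) : ‖(Matrix.single i j (1 : ℂ) : Matrix D D ℂ)‖ ≤ 1 := by
  have hp : ∀ p : Matrix D D ℂ, star p * p = p → ‖p‖ ≤ 1 := by
    intro p hp
    have h : ‖p‖ * ‖p‖ = ‖p‖ := by
      rw [← CStarRing.norm_star_mul_self, hp]
    nlinarith [norm_nonneg p]
  have h1 : star (Matrix.single i j (1 : ℂ)) * Matrix.single i j (1 : ℂ) = Matrix.single j j 1 := by
    rw [Matrix.star_eq_conjTranspose, Matrix.conjTranspose_single, star_one,
      Matrix.single_mul_single_same, one_mul]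
  have h2 : ‖(Matrix.single j j (1 : ℂ) : Matrix D D ℂ)‖ ≤ 1 := by
    refine hp _ ?_
    rw [Matrix.star_eq_conjTranspose, Matrix.conjTranspose_single, star_one,
      Matrix.single_mul_single_same, one_mul]
  have h3 : ‖(Matrix.single i j (1 : ℂ) : Matrix D D ℂ)‖ *
      ‖(Matrix.single i j (1 : ℂ) : Matrix D D ℂ)‖ ≤ 1 := by
    rw [← CStarRing.norm_star_mul_self, h1]
    exact h2
  nlinarith [norm_nonneg (Matrix.single i j (1 : ℂ) : Matrix D D ℂ)]

/-- Matrices over a Connes embeddable tracial C*-algebra are Connes embeddable. -/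
theorem mtr_microEmb [Nonempty D] {τ : 𝒜 →ₗ[ℂ] ℂ} (hτ : TrAlg τ) (hM : MicroEmb τ) :
    MicroEmb (mtr D τ) := by
  classical
  intro F m ε hε
  let c : 𝒜 ⊕ D × D → CStarMatrix D D 𝒜 := Sum.elim (fun a => jmap D a)
    (fun p => smap D 𝒜 (Matrix.single p.1 p.2 1))
  let R : 𝒜 ⊕ D × D → ℝ := Sum.elim (fun a => ‖a‖) (fun p => ‖Matrix.single p.1 p.2 (1 : ℂ)‖)
  refine microstates_of_model (κ := 𝒜 ⊕ D × D) (mtr D τ) (mtr_trAlg hτ) c R ?_ ?_ ?_ F m ε hε
  · rintro (a | p)
    · exact NonUnitalStarAlgHom.norm_apply_le (jmap D) a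
    · exact NonUnitalStarAlgHom.norm_apply_le (smap D 𝒜) _
  · intro x δ hδ
    -- every element is a polynomial
    have hex : ∀ s : Finset (D × D), ∃ P : NC (𝒜 ⊕ D × D),
        ncEval c P = ∑ p ∈ s, jmap D (x p.1 p.2) * smap D 𝒜 (Matrix.single p.1 p.2 1) := by
      intro s
      induction s using Finset.induction with
      | empty => exact ⟨[], by rw [ncEval_nil, Finset.sum_empty]⟩
      | insert p s hp ih =>
        obtain ⟨P, hP⟩ := ih
        refine ⟨ncMul (ncVar (Sum.inl (x p.1 p.2))) (ncVar (Sum.inr p)) ++ P, ?_⟩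
        rw [ncEval_append, ncEval_mul, ncEval_var, ncEval_var, hP, Finset.sum_insert hp]
        rfl
    obtain ⟨P, hP⟩ := hex Finset.univ
    have hx : ∑ p : D × D, jmap D (x p.1 p.2) * smap D 𝒜 (Matrix.single p.1 p.2 1) = x := by
      refine CStarMatrix.ext fun i j => ?_
      have h1 : (∑ p : D × D, jmap D (x p.1 p.2) * smap D 𝒜 (Matrix.single p.1 p.2 1)) i j =
          ∑ p : D × D, (jmap D (x p.1 p.2) * smap D 𝒜 (Matrix.single p.1 p.2 1)) i j :=
        Matrix.sum_apply i j Finset.univ
          fun p : D × D => (jmap D (x p.1 p.2) * smap D 𝒜 (Matrix.single p.1 p.2 1) : Matrix D D 𝒜)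
      rw [h1, Finset.sum_eq_single (i, j)]
      · rw [jmap_mul_smap_apply, Matrix.single_apply_same, one_smul]
      · rintro ⟨k, l⟩ _ hkl
        rw [jmap_mul_smap_apply, Matrix.single_apply, if_neg, zero_smul]
        rintro ⟨rfl, rfl⟩
        exact hkl rfl
      · intro h
        exact absurd (Finset.mem_univ _) h
    refine ⟨P, ?_⟩
    rw [hP, hx, sub_self, (mtr_trAlg hτ).n2_zero]
    exact hδ
  · intro F' m' ε' hε'
    obtain ⟨ν, hν, X, hX1, hX2⟩ := hM (F'.toLeft) m' ε' hε'
    haveI : Nonempty (Fin ν) := ⟨⟨0, hν⟩⟩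
    obtain ⟨ν', hν', Ψ, hΨ⟩ := exists_fin (Fin ν × D)
    let Y : 𝒜 ⊕ D × D → Matrix (Fin ν × D) (Fin ν × D) ℂ := Sum.elim (fun a => C1_left (Fin ν) D (X a))
      (fun p => C1_right (Fin ν) D (Matrix.single p.1 p.2 1))
    refine ⟨ν', hν', fun k => Ψ (Y k), ?_, ?_⟩
    · rintro (a | p)
      · exact (NonUnitalStarAlgHom.norm_apply_le Ψ _).trans
          ((NonUnitalStarAlgHom.norm_apply_le (C1_left (Fin ν) D) _).trans (hX1 a))
      · exact (NonUnitalStarAlgHom.norm_apply_le Ψ _).trans
          (NonUnitalStarAlgHom.norm_apply_le (C1_right (Fin ν) D) _)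
    · intro w hw hwm
      -- a word is (word in 𝒜) ⊗ (word in matrix units)
      have hsplit : ∀ w : List ((𝒜 ⊕ D × D) × Bool), (∀ p ∈ w, p.1 ∈ F') →
          ∃ (w1 : List (𝒜 × Bool)) (y : Matrix D D ℂ), (∀ p ∈ w1, p.1 ∈ F'.toLeft) ∧
            ‖y‖ ≤ 1 ∧ w1.length ≤ w.length ∧ wordEval c w = jmap D (wordEval id w1) * smap D 𝒜 y ∧
            wordEval Y w = C1_left (Fin ν) D (wordEval X w1) * C1_right (Fin ν) D y := by
        intro w hw
        induction w with
        | nil =>
          refine ⟨[], 1, by simp, CStarRing.norm_one.le, le_rfl, ?_, ?_⟩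
          · rw [W1_nil, W1_nil, map_one, map_one, mul_one]
          · rw [W1_nil, W1_nil, map_one, map_one, mul_one]
        | cons p w ih =>
          obtain ⟨w1, y, h1, h0, h2, h3, h4⟩ := ih fun q hq => hw q (List.mem_cons_of_mem _ hq)
          have hcomm : ∀ (a : Matrix (Fin ν) (Fin ν) ℂ) (b : Matrix D D ℂ),
              C1_right (Fin ν) D b * C1_left (Fin ν) D a =
                C1_left (Fin ν) D a * C1_right (Fin ν) D b := by
            intro a b
            show Matrix.kroneckerMap (fun x y => x * y) 1 b * Matrix.kroneckerMap (fun x y => x * y) a 1 =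
              Matrix.kroneckerMap (fun x y => x * y) a 1 * Matrix.kroneckerMap (fun x y => x * y) 1 b
            rw [kron_mul, kron_mul, one_mul, one_mul, mul_one, mul_one]
          obtain ⟨(a | q), s⟩ := p
          · refine ⟨(a, s) :: w1, y, ?_, h0, ?_, ?_, ?_⟩
            · intro r hr
              rcases List.mem_cons.1 hr with rfl | hr
              · exact Finset.mem_toLeft.2 (hw (Sum.inl a, s) List.mem_cons_self)
              · exact h1 r hr
            · simpa using h2
            · rw [W1_cons, W1_cons, h3]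
              cases s
              · show jmap D a * (jmap D (wordEval id w1) * smap D 𝒜 y) =
                  jmap D (a * wordEval id w1) * smap D 𝒜 y
                rw [map_mul, mul_assoc]
              · show star (jmap D a) * (jmap D (wordEval id w1) * smap D 𝒜 y) =
                  jmap D (star a * wordEval id w1) * smap D 𝒜 y
                rw [map_mul, map_star, mul_assoc]
            · rw [W1_cons, W1_cons, h4]
              cases s
              · show C1_left (Fin ν) D (X a) * (C1_left (Fin ν) D (wordEval X w1) *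
                  C1_right (Fin ν) D y) = C1_left (Fin ν) D (X a * wordEval X w1) *
                  C1_right (Fin ν) D y
                rw [map_mul, mul_assoc]
              · show star (C1_left (Fin ν) D (X a)) * (C1_left (Fin ν) D (wordEval X w1) *
                  C1_right (Fin ν) D y) = C1_left (Fin ν) D (star (X a) * wordEval X w1) *
                  C1_right (Fin ν) D y
                rw [map_mul, map_star, mul_assoc]
          · refine ⟨w1, (if s then star (Matrix.single q.1 q.2 (1 : ℂ)) else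
              Matrix.single q.1 q.2 1) * y, h1, ?_, ?_, ?_, ?_⟩
            · refine (norm_mul_le _ _).trans ?_
              have h5 : ‖(if s then star (Matrix.single q.1 q.2 (1 : ℂ)) else
                  Matrix.single q.1 q.2 1 : Matrix D D ℂ)‖ ≤ 1 := by
                cases s
                · exact norm_single_le q.1 q.2
                · show ‖star (Matrix.single q.1 q.2 (1 : ℂ) : Matrix D D ℂ)‖ ≤ 1
                  rw [norm_star]
                  exact norm_single_le q.1 q.2
              calc _ ≤ (1 : ℝ) * 1 := mul_le_mul h5 h0 (norm_nonneg _) zero_le_one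
                _ = 1 := one_mul 1
            · exact h2.trans (Nat.le_succ _)
            · rw [W1_cons, h3]
              cases s
              · show smap D 𝒜 (Matrix.single q.1 q.2 1) * (jmap D (wordEval id w1) * smap D 𝒜 y) =
                  jmap D (wordEval id w1) * smap D 𝒜 (Matrix.single q.1 q.2 1 * y)
                rw [map_mul, ← mul_assoc, ← jmap_smap_comm, mul_assoc]
              · show star (smap D 𝒜 (Matrix.single q.1 q.2 1)) *
                  (jmap D (wordEval id w1) * smap D 𝒜 y) =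
                  jmap D (wordEval id w1) * smap D 𝒜 (star (Matrix.single q.1 q.2 (1 : ℂ)) * y)
                rw [map_mul, ← map_star, ← mul_assoc, ← jmap_smap_comm, mul_assoc]
            · rw [W1_cons, h4]
              cases s
              · show C1_right (Fin ν) D (Matrix.single q.1 q.2 1) *
                  (C1_left (Fin ν) D (wordEval X w1) * C1_right (Fin ν) D y) =
                  C1_left (Fin ν) D (wordEval X w1) *
                    C1_right (Fin ν) D (Matrix.single q.1 q.2 1 * y)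
                rw [map_mul, ← mul_assoc, hcomm, mul_assoc]
              · show star (C1_right (Fin ν) D (Matrix.single q.1 q.2 1)) *
                  (C1_left (Fin ν) D (wordEval X w1) * C1_right (Fin ν) D y) =
                  C1_left (Fin ν) D (wordEval X w1) *
                    C1_right (Fin ν) D (star (Matrix.single q.1 q.2 (1 : ℂ)) * y)
                rw [map_mul, ← map_star, ← mul_assoc, hcomm, mul_assoc]
      obtain ⟨w1, y, h1, h0, h2, h3, h4⟩ := hsplit w hw
      have e1 : wordEval (fun k => Ψ (Y k)) w = Ψ (wordEval Y w) := (map_wordEval _ _ _).symm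
      have e2 : C1_left (Fin ν) D (wordEval X w1) * C1_right (Fin ν) D y =
          Matrix.kroneckerMap (fun x y => x * y) (wordEval X w1) y := by
        show Matrix.kroneckerMap (fun x y => x * y) (wordEval X w1) 1 *
          Matrix.kroneckerMap (fun x y => x * y) 1 y = _
        rw [kron_mul, one_mul, mul_one]
      rw [e1, hΨ, h4, e2, ntr_kron, h3, mtr_jmap_smap, ← sub_mul, norm_mul]
      have h5 := hX2 w1 h1 (h2.trans hwm)
      have h6 : ‖ntr y‖ ≤ 1 :=
        ((ntr_trAlg : TrAlg (ntr : Matrix D D ℂ →ₗ[ℂ] ℂ)).norm_le y).trans h0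
      calc _ ≤ ‖ntr (wordEval X w1) - τ (wordEval id w1)‖ * 1 :=
            mul_le_mul_of_nonneg_left h6 (norm_nonneg _)
        _ < ε' := by rw [mul_one]; exact h5

end Pool.Agent.QFI
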