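import Pool.Agent.QFP.W1
import Pool.Agent.QFP.K4
import Pool.Agent.QFP.S1
import Pool.Agent.QFP.T4
import Pool.Agent.QFP.A2y

/-!
# [QFI.W] A criterion with letters

The free powers of `A` over `B` are Connes embeddable if there are sufficiently many maps `π s` of
letters of `A` into Connes embeddable tracial C*-algebras `E` with the right ⋆-moments, which agree
on the letters in `B` and whose averages are small on the letters orthogonal to `B`.
-/

set_option autoImplicit false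

namespace Pool.Agent.QFI

open Pool.Agent.QFP Filter Topology
open scoped Matrix.Norms.L2Operator

universe u v w

theorem W_gen {Λ : Type*} {ℱ : Filter Λ} {D : Λ → Type*} [∀ α, CStarAlgebra (D α)]
    {t : ∀ α, D α →ₗ[ℂ] ℂ} {κ S : Type*} [Ring S] [StarRing S] [Algebra ℂ S] [StarModule ℂ S]
    {τ : S →ₗ[ℂ] ℂ} {X : ∀ α, κ → D α} (c : κ → S)
    (hX : ∀ w : List (κ × Bool),
      Tendsto (fun α => t α (wordEval (X α) w)) ℱ (𝓝 (τ (wordEval c w)))) {n : ℕ}
    (z : Fin n → ℂ) (u : Fin n → List (κ × Bool))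
    (h0 : ∑ i, z i • wordEval c (u i) = 0) :
    Tendsto (fun α => n2 (t α) (∑ i, z i • wordEval (X α) (u i))) ℱ (𝓝 0) := by
  have h1 : Tendsto (fun α => t α (star (∑ i, z i • wordEval (X α) (u i)) *
      ∑ i, z i • wordEval (X α) (u i))) ℱ (𝓝 0) := by
    have h2 : τ (star (∑ i, z i • wordEval c (u i)) *
        ∑ i, z i • wordEval c (u i)) = 0 := by
      rw [h0, mul_zero, map_zero]
    rw [W1_sq] at h2
    rw [← h2]
    simp only [W1_sq]
    exact tendsto_finsetSum _ fun i _ => tendsto_finsetSum _ fun j _ =>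
      ((hX _).const_mul _).const_mul _
  have h3 := (Complex.continuous_re.tendsto 0).comp h1
  have h4 := (Real.continuous_sqrt.tendsto (Complex.re 0)).comp h3
  rw [Complex.zero_re, Real.sqrt_zero] at h4
  exact h4

/-- Connes embeddability of a tracial C*-algebra. -/
def MicroEmb {E : Type*} [CStarAlgebra E] (φ : E →ₗ[ℂ] ℂ) : Prop :=
  ∀ (F : Finset E) (m : ℕ) (ε : ℝ), 0 < ε →
    ∃ (ν : ℕ) (_ : 0 < ν) (X : E → Matrix (Fin ν) (Fin ν) ℂ), (∀ a, ‖X a‖ ≤ ‖a‖) ∧
      ∀ w : List (E × Bool), (∀ p ∈ w, p.1 ∈ F) → w.length ≤ m →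
        ‖ntr (wordEval X w) - φ (wordEval id w)‖ < ε

/-- Models for the letters. -/
def Model {κ : Type v} (R : κ → ℝ) (T : List (κ × Bool) → ℂ) (isB isC : κ → Prop)
    (F : Finset κ) (m : ℕ) (ε : ℝ) : Prop :=
  ∃ (E : Type u) (_ : CStarAlgebra E) (φ : E →ₗ[ℂ] ℂ) (_ : TrAlg φ) (_ : MicroEmb φ) (n : ℕ)
    (_ : 0 < n) (π : Fin n → κ → E),
    (∀ s a, ‖π s a‖ ≤ R a) ∧
    (∀ s, ∀ w : List (κ × Bool), (∀ p ∈ w, p.1 ∈ F) → w.length ≤ m →
      ‖φ (wordEval (π s) w) - T w‖ < ε) ∧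
    (∀ b ∈ F, isB b → ∀ s s', π s b = π s' b) ∧
    ∀ a ∈ F, isC a → n2 φ ((n : ℂ)⁻¹ • ∑ s, π s a) < ε

/-- Finite matrix models: from `Model` to matrices. -/
theorem Model.matrices {κ : Type v} {R : κ → ℝ} {T : List (κ × Bool) → ℂ} {isB isC : κ → Prop}
    {F : Finset κ} {m : ℕ} {ε : ℝ} (hε : 0 < ε) (h : Model.{u, v} R T isB isC F m ε) :
    ∃ (n : ℕ) (_ : 0 < n) (ν : ℕ) (_ : 0 < ν) (x : κ → Fin n → Matrix (Fin ν) (Fin ν) ℂ),
      (∀ a s, ‖x a s‖ ≤ R a) ∧
      (∀ w : List (κ × Bool), (∀ p ∈ w, p.1 ∈ F) → w.length ≤ m →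
        ‖tpi n (Fin ν) (wordEval x w) - T w‖ < 2 * ε) ∧
      (∀ b ∈ F, isB b → ∀ s s', x b s = x b s') ∧
      ∀ a ∈ F, isC a → n2 ntr ((n : ℂ)⁻¹ • ∑ s, x a s) < 2 * ε := by
  classical
  obtain ⟨E, _, φ, hφ, hM, n, hn, π, h1, h2, h3, h4⟩ := h
  let F' : Finset E := Finset.univ.biUnion fun s => F.image (π s)
  have hF' : ∀ s, ∀ a ∈ F, π s a ∈ F' := by
    intro s a ha
    exact Finset.mem_biUnion.2 ⟨s, Finset.mem_univ _, Finset.mem_image_of_mem _ ha⟩
  let ε' : ℝ := min ε (ε ^ 2)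
  have hε'0 : 0 < ε' := lt_min hε (by positivity)
  obtain ⟨ν, hν, Z, hZ1, hZ2⟩ := hM F' (max m 2) ε' hε'0
  have : Nonempty (Fin ν) := ⟨⟨0, hν⟩⟩
  refine ⟨n, hn, ν, hν, fun a s => Z (π s a), ?_, ?_, ?_, ?_⟩
  · intro a s
    exact (hZ1 _).trans (h1 s a)
  · intro w hw hwm
    rw [tpi_apply]
    have e2 : (n : ℂ)⁻¹ * ∑ s, ntr (wordEval (fun a s => Z (π s a)) w s) - T w =
        (n : ℂ)⁻¹ * ∑ s, (ntr (wordEval (fun a s => Z (π s a)) w s) - T w) := by
      have hn' : (n : ℂ) ≠ 0 := by exact_mod_cast hn.ne'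
      rw [Finset.sum_sub_distrib, mul_sub, Finset.sum_const, Finset.card_univ, Fintype.card_fin,
        nsmul_eq_mul, inv_mul_cancel_left₀ hn']
    rw [e2]
    refine A2y_avg hn _ (2 * ε) fun s => ?_
    have h5 := hZ2 (w.map fun p => (π s p.1, p.2)) (by
      intro p hp
      obtain ⟨q, hq, rfl⟩ := List.mem_map.1 hp
      exact hF' s q.1 (hw q hq)) (by
      rw [List.length_map]
      exact le_trans hwm (le_max_left _ _))
    rw [A2y_word, A2y_word] at h5
    have e3 : wordEval (fun k => id (π s k)) w = wordEval (π s) w := rfl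
    rw [e3] at h5
    have e4 : wordEval (fun a s => Z (π s a)) w s = wordEval (fun k => Z (π s k)) w :=
      wordEval_pi n _ w s
    rw [e4]
    have e5 : ntr (wordEval (fun k => Z (π s k)) w) - T w =
        (ntr (wordEval (fun k => Z (π s k)) w) - φ (wordEval (π s) w)) +
          (φ (wordEval (π s) w) - T w) := by ring
    rw [e5]
    refine lt_of_le_of_lt (norm_add_le _ _) ?_
    have h6 := h2 s w hw hwm
    have h7 : ε' ≤ ε := min_le_left _ _
    linarith
  · intro b hb hbB s s'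
    show Z (π s b) = Z (π s' b)
    rw [h3 b hb hbB s s']
  · intro a ha haC
    have hntr : TrAlg (ntr : Matrix (Fin ν) (Fin ν) ℂ →ₗ[ℂ] ℂ) := ntr_trAlg
    have h5 : n2 ntr ((n : ℂ)⁻¹ • ∑ s, Z (π s a)) ^ 2 =
        ((n : ℂ)⁻¹ * ∑ s, (n : ℂ)⁻¹ * ∑ s', ntr (star (Z (π s a)) * Z (π s' a))).re := by
      rw [hntr.n2_sq, A2y_expand]
    have h6 : n2 φ ((n : ℂ)⁻¹ • ∑ s, π s a) ^ 2 =
        ((n : ℂ)⁻¹ * ∑ s, (n : ℂ)⁻¹ * ∑ s', φ (star (π s a) * π s' a)).re := by
      rw [hφ.n2_sq, A2y_expand]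
    have h7 := A2y_avg2 hn (fun s s' => ntr (star (Z (π s a)) * Z (π s' a)) -
      φ (star (π s a) * π s' a)) ε' (by
      intro s s'
      have h := hZ2 [(π s a, true), (π s' a, false)] (by
        intro p hp
        simp only [List.mem_cons, List.not_mem_nil, or_false] at hp
        rcases hp with rfl | rfl
        · exact hF' s a ha
        · exact hF' s' a ha) (by simp)
      simpa [wordEval] using h)
    have e3 : (n : ℂ)⁻¹ * ∑ s, (n : ℂ)⁻¹ * ∑ s', (ntr (star (Z (π s a)) * Z (π s' a)) -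
        φ (star (π s a) * π s' a)) =
        (n : ℂ)⁻¹ * ∑ s, (n : ℂ)⁻¹ * ∑ s', ntr (star (Z (π s a)) * Z (π s' a)) -
        (n : ℂ)⁻¹ * ∑ s, (n : ℂ)⁻¹ * ∑ s', φ (star (π s a) * π s' a) := by
      simp only [Finset.sum_sub_distrib, mul_sub]
    rw [e3] at h7
    have h8 : n2 ntr ((n : ℂ)⁻¹ • ∑ s, Z (π s a)) ^ 2 - n2 φ ((n : ℂ)⁻¹ • ∑ s, π s a) ^ 2 < ε' := by
      rw [h5, h6, ← Complex.sub_re]
      exact lt_of_le_of_lt (Complex.re_le_norm _) h7
    have h9 : n2 φ ((n : ℂ)⁻¹ • ∑ s, π s a) ^ 2 < ε ^ 2 :=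
      pow_lt_pow_left₀ (h4 a ha haC) (n2_nonneg _ _) two_ne_zero
    have h10 : ε' ≤ ε ^ 2 := min_le_right _ _
    have h11 : n2 ntr ((n : ℂ)⁻¹ • ∑ s, Z (π s a)) ^ 2 < (2 * ε) ^ 2 := by
      have : (0 : ℝ) < ε ^ 2 := by positivity
      nlinarith
    exact lt_of_pow_lt_pow_left₀ 2 (by positivity) h11

theorem W_tendsto {α' : Type*} [DecidableEq α'] (f : Finset α' × ℕ → ℝ)
    (F0 : Finset α') (N0 : ℕ) (C : ℝ) (hC : 0 < C) (h0 : ∀ α, 0 ≤ f α)
    (h : ∀ α : Finset α' × ℕ, F0 ⊆ α.1 → N0 ≤ α.2 → f α ≤ C * (1 / ((α.2 : ℝ) + 1))) :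
    Tendsto f atTop (𝓝 0) := by
  rw [Metric.tendsto_atTop]
  intro ε hε
  obtain ⟨N, hN⟩ := exists_nat_one_div_lt (show 0 < ε / C by positivity)
  refine ⟨(F0, max N0 N), fun α hα => ?_⟩
  have h1 : F0 ⊆ α.1 := hα.1
  have h2 : max N0 N ≤ α.2 := hα.2
  have h3 := h α h1 (le_trans (le_max_left _ _) h2)
  rw [dist_zero_right, Real.norm_eq_abs, abs_of_nonneg (h0 α)]
  have h4 : (N : ℝ) ≤ α.2 := by exact_mod_cast le_trans (le_max_right _ _) h2
  have h5 : 1 / ((α.2 : ℝ) + 1) ≤ 1 / ((N : ℝ) + 1) := by gcongr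
  have h6 : 1 / ((α.2 : ℝ) + 1) < ε / C := lt_of_le_of_lt h5 hN
  rw [lt_div_iff₀ hC] at h6
  linarith

/-- The criterion with letters. -/
theorem connesEmb_of_letters {H : Type w} [NormedAddCommGroup H] [InnerProductSpace ℂ H]
    [CompleteSpace H] {A B : VonNeumannAlgebra H} {τ : Alg A →ₗ[ℂ] ℂ} (hτ : IsTrace A τ)
    {κ : Type v} (mul : κ → κ → κ) (st : κ → κ) (isB isC : κ → Prop) (R : κ → ℝ) (c0 : κ → Alg A)
    (cmul : ∀ a b, c0 (mul a b) = c0 a * c0 b) (cst : ∀ a, c0 (st a) = star (c0 a))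
    (cR : ∀ a, ‖c0 a‖ ≤ R a)
    (cB : ∀ b, isB b → ((c0 b : Alg A) : H →L[ℂ] H) ∈ B)
    (cC : ∀ a, isC a → Perp A B τ (c0 a))
    (hdec : ∀ a, isB a ∨ isC a ∨ ∃ a0 b, isC a0 ∧ isB b ∧ c0 a = c0 a0 + c0 b)
    (hgen : (A : Set (H →L[ℂ] H)) ⊆ Set.centralizer (Set.centralizer
      {x | ∃ k, x = ((c0 k : Alg A) : H →L[ℂ] H)}))
    (hmod : ∀ (F : Finset κ) (m : ℕ) (ε : ℝ), 0 < ε →
      Model.{u, v} R (fun w => τ (wordEval c0 w)) isB isC F m ε)
    {K : Type*} [NormedAddCommGroup K] [InnerProductSpace ℂ K] [CompleteSpace K]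
    {M : VonNeumannAlgebra K} {φ : Alg M →ₗ[ℂ] ℂ} (hφ : IsTrace M φ)
    {J : Type*} {ι : J → Alg A →⋆ₐ[ℂ] Alg M} (hι : IsFreePower A B τ M φ ι) :
    ConnesEmb M φ := by
  classical
  have hmod' := fun α : Finset κ × ℕ =>
    (hmod α.1 α.2 (1 / ((α.2 : ℝ) + 1)) (by positivity)).matrices (by positivity)
  choose n hn ν hν x x1 x2 x3 x4 using hmod'
  have : ∀ α, Nonempty (Fin (ν α)) := fun α => ⟨⟨0, hν α⟩⟩
  have htp : ∀ α, TrAlg (tpi (n α) (Fin (ν α))) := fun α => tpi_trAlg (n α) (hn α) _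
  have hwords : ∀ w : List (κ × Bool),
      Tendsto (fun α => tpi (n α) (Fin (ν α)) (wordEval (x α) w)) atTop
        (𝓝 (τ (wordEval c0 w))) := by
    intro w
    rw [tendsto_iff_norm_sub_tendsto_zero]
    refine W_tendsto _ (w.map Prod.fst).toFinset w.length 2 two_pos (fun α => norm_nonneg _) ?_
    intro α h1 h2
    refine (x2 α w ?_ h2).le
    intro p hp
    exact h1 (List.mem_toFinset.2 (List.mem_map.2 ⟨p, hp, rfl⟩))
  have Hmod := tuple_model_any (S := κ) (J := J) mul st isB isC R (fun a => τ (c0 a))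
    φ hφ.trAlg (fun j a => ι j (c0 a))
    (fun j a b => by rw [cmul, map_mul]) (fun j a => by rw [cst, map_star])
    (fun i j b hb => hι.agree i j _ (cB b hb))
    (fun j a => hι.trace_eq j _)
    (by
      intro l hl hch hC
      have h1 := hι.free (l.map fun p => (p.1, c0 p.2)) (by simpa using hl)
        (by
          rw [List.isChain_map]
          exact hch)
        (by
          intro p hp
          obtain ⟨q, hq, rfl⟩ := List.mem_map.1 hp
          exact cC _ (hC q hq))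
      rw [List.map_map] at h1
      exact h1)
    (atTop : Filter (Finset κ × ℕ)) n hn (fun α => Fin (ν α)) x x1
    (by
      intro a b
      have h := W_gen c0 hwords ![1, -1] ![[(mul a b, false)], [(a, false), (b, false)]] (by
        rw [Fin.sum_univ_two]
        simp [wordEval, cmul])
      refine h.congr fun α => ?_
      congr 1
      rw [Fin.sum_univ_two]
      simp [wordEval, sub_eq_add_neg])
    (by
      intro a
      have h := W_gen c0 hwords ![1, -1] ![[(st a, false)], [(a, true)]] (by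
        rw [Fin.sum_univ_two]
        simp [wordEval, cst])
      refine h.congr fun α => ?_
      congr 1
      rw [Fin.sum_univ_two]
      simp [wordEval, sub_eq_add_neg])
    (by
      intro a
      have h := hwords [(a, false)]
      simpa [wordEval] using h)
    (by
      intro b hb
      filter_upwards [eventually_ge_atTop (({b} : Finset κ), 0)] with α hα s s'
      exact x3 α b (hα.1 (Finset.mem_singleton_self b)) hb s s')
    (by
      intro a ha
      refine W_tendsto _ {a} 0 2 two_pos (fun α => n2_nonneg _ _) ?_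
      intro α h1 _
      exact (x4 α a (h1 (Finset.mem_singleton_self a)) ha).le)
    (by
      intro a
      rcases hdec a with h | h | ⟨a0, b, h1, h2, h3⟩
      · exact Or.inl h
      · exact Or.inr (Or.inl h)
      · refine Or.inr (Or.inr ⟨a0, b, h1, h2, fun j => by rw [h3, map_add], ?_⟩)
        have h := W_gen c0 hwords ![1, -1, -1] ![[(a, false)], [(a0, false)], [(b, false)]] (by
          rw [Fin.sum_univ_three]
          simp [wordEval, h3])
        refine h.congr fun α => ?_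
        congr 1
        rw [Fin.sum_univ_three]
        simp [wordEval]
        abel)
  have e : {x : K →L[ℂ] K | ∃ k : J × Alg A, x = ((ι k.1 k.2 : Alg M) : K →L[ℂ] K)} =
      {x | ∃ j a, x = ((ι j a : Alg M) : K →L[ℂ] K)} := by
    ext z
    constructor
    · rintro ⟨k, hk⟩
      exact ⟨k.1, k.2, hk⟩
    · rintro ⟨j, a, h⟩
      exact ⟨(j, a), h⟩
  refine connesEmb_of_model hφ (κ := J × κ) (fun p => ι p.1 (c0 p.2))
    (fun p => R p.2)
    (fun p => (NonUnitalStarAlgHom.norm_apply_le (ι p.1) (c0 p.2)).trans (cR p.2)) ?_ Hmod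
  intro y δ hδ
  refine density_trans hτ.trAlg hφ.trAlg ι hι.trace_eq c0 ?_ ?_ y δ hδ
  · intro z δ' hδ'
    exact density_of_generates hτ _ hgen z δ' hδ'
  · intro z δ' hδ'
    refine density_of_generates hφ (fun p : J × Alg A => ι p.1 p.2) ?_ z δ' hδ'
    rw [e, ← hι.generates]

end Pool.Agent.QFI
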